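import Mathlib

set_option autoImplicit false

namespace Pool.Agent.P.MP_2c7dbf_nt

open Finset

/-- Coprime pairs in the box `[1, X] × [1, Y]`. -/
def cop (X Y : ℕ) : Finset (ℕ × ℕ) :=
  (Icc 1 X ×ˢ Icc 1 Y).filter (fun p => Nat.gcd p.1 p.2 = 1)

theorem sum_odd_le (n : ℕ) :
    ∑ j ∈ range (n + 2), (1 : ℝ) / (2 * (j : ℝ) + 3) ^ 2
      ≤ 1 / 9 + 1 / 25 + 1 / 12 - 1 / (4 * ((n : ℝ) + 3)) := by
  induction n with
  | zero => norm_num [Finset.sum_range_succ]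
  | succ n ih =>
    rw [show n + 1 + 2 = (n + 2) + 1 from rfl, Finset.sum_range_succ]
    have hn : (0 : ℝ) ≤ n := Nat.cast_nonneg n
    have key : (1 : ℝ) / (2 * ((n + 2 : ℕ) : ℝ) + 3) ^ 2
        ≤ 1 / (4 * ((n : ℝ) + 3)) - 1 / (4 * (((n + 1 : ℕ) : ℝ) + 3)) := by
      push_cast
      rw [div_sub_div _ _ (by positivity) (by positivity), div_le_div_iff₀ (by positivity) (by positivity)]
      nlinarith [mul_nonneg hn hn]
    linarith

theorem card_dvd_pairs (m d : ℕ) (hd : 0 < d) :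
    (((Icc 1 m ×ˢ Icc 1 m).filter (fun p : ℕ × ℕ => d ∣ p.1 ∧ d ∣ p.2)).card : ℝ)
      ≤ (m : ℝ) ^ 2 / (d : ℝ) ^ 2 := by
  have h1 : (Icc 1 m ×ˢ Icc 1 m).filter (fun p : ℕ × ℕ => d ∣ p.1 ∧ d ∣ p.2)
      = ((Ioc 0 m).filter (fun a => d ∣ a)) ×ˢ ((Ioc 0 m).filter (fun a => d ∣ a)) := by
    ext ⟨a, b⟩
    simp only [mem_filter, mem_product, mem_Icc, mem_Ioc]
    constructor
    · rintro ⟨⟨⟨h1, h2⟩, h3, h4⟩, h5, h6⟩
      exact ⟨⟨⟨h1, h2⟩, h5⟩, ⟨h3, h4⟩, h6⟩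
    · rintro ⟨⟨⟨h1, h2⟩, h5⟩, ⟨h3, h4⟩, h6⟩
      exact ⟨⟨⟨h1, h2⟩, h3, h4⟩, h5, h6⟩
  rw [h1, card_product, Nat.Ioc_filter_dvd_card_eq_div]
  have h2 : ((m / d : ℕ) : ℝ) ≤ (m : ℝ) / d := Nat.cast_div_le
  have h3 : (0 : ℝ) ≤ ((m / d : ℕ) : ℝ) := Nat.cast_nonneg _
  push_cast
  rw [← div_pow]
  nlinarith

theorem cop_large (m : ℕ) (hm : 65 ≤ m) : m * m + 2 * m < 2 * (cop m m).card := by
  set S : Finset (ℕ × ℕ) := Icc 1 m ×ˢ Icc 1 m with hS
  have hScard : S.card = m * m := by simp [hS]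
  set bad : Finset (ℕ × ℕ) := S.filter (fun p => ¬ Nat.gcd p.1 p.2 = 1) with hbad
  have hsum : (cop m m).card + bad.card = m * m := by
    rw [← hScard, cop, hbad]
    exact Finset.card_filter_add_card_filter_not _
  have hsub : bad ⊆ S.filter (fun p : ℕ × ℕ => 2 ∣ p.1 ∧ 2 ∣ p.2) ∪
      (range (m + 2)).biUnion (fun j => S.filter (fun p : ℕ × ℕ => (2 * j + 3) ∣ p.1 ∧ (2 * j + 3) ∣ p.2)) := by
    intro p hp
    rw [hbad, mem_filter] at hp
    obtain ⟨hpS, hg⟩ := hp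
    have hp1 : 1 ≤ p.1 ∧ p.1 ≤ m := by
      have := hpS
      rw [hS, mem_product, mem_Icc] at this
      exact this.1
    have hgpos : 0 < Nat.gcd p.1 p.2 := Nat.gcd_pos_of_pos_left _ hp1.1
    have hgle : Nat.gcd p.1 p.2 ≤ m := le_trans (Nat.le_of_dvd hp1.1 (Nat.gcd_dvd_left _ _)) hp1.2
    rw [mem_union]
    rcases Nat.even_or_odd' (Nat.gcd p.1 p.2) with ⟨j, hj | hj⟩
    · left
      rw [mem_filter]
      have h2 : 2 ∣ Nat.gcd p.1 p.2 := ⟨j, hj⟩
      exact ⟨hpS, h2.trans (Nat.gcd_dvd_left _ _), h2.trans (Nat.gcd_dvd_right _ _)⟩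
    · right
      rw [mem_biUnion]
      refine ⟨j - 1, ?_, ?_⟩
      · rw [mem_range]; omega
      · rw [mem_filter]
        have h2 : 2 * (j - 1) + 3 = Nat.gcd p.1 p.2 := by omega
        rw [h2]
        exact ⟨hpS, Nat.gcd_dvd_left _ _, Nat.gcd_dvd_right _ _⟩
  have hb1 : bad.card ≤ (S.filter (fun p : ℕ × ℕ => 2 ∣ p.1 ∧ 2 ∣ p.2)).card +
      ∑ j ∈ range (m + 2),
        (S.filter (fun p : ℕ × ℕ => (2 * j + 3) ∣ p.1 ∧ (2 * j + 3) ∣ p.2)).card :=
    le_trans (card_le_card hsub) (le_trans (card_union_le _ _)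
      (Nat.add_le_add_left card_biUnion_le _))
  have hb2 : (bad.card : ℝ) ≤ (m : ℝ) ^ 2 / 4 +
      ∑ j ∈ range (m + 2), (m : ℝ) ^ 2 * (1 / (2 * (j : ℝ) + 3) ^ 2) := by
    have h := (Nat.cast_le (α := ℝ)).mpr hb1
    push_cast at h
    refine le_trans h (add_le_add ?_ (Finset.sum_le_sum ?_))
    · have := card_dvd_pairs m 2 (by norm_num)
      norm_num at this ⊢
      exact this
    · intro j _
      have := card_dvd_pairs m (2 * j + 3) (by omega)
      push_cast at this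
      rw [mul_one_div]
      exact this
  rw [← Finset.mul_sum] at hb2
  have hs := sum_odd_le m
  have hm' : (65 : ℝ) ≤ m := by exact_mod_cast hm
  have hpos : (0 : ℝ) < 1 / (4 * ((m : ℝ) + 3)) := by positivity
  have hs' : ∑ j ∈ range (m + 2), (1 : ℝ) / (2 * (j : ℝ) + 3) ^ 2 ≤ 1 / 9 + 1 / 25 + 1 / 12 := by
    linarith
  have hb3 : (bad.card : ℝ) ≤ (m : ℝ) ^ 2 * (109 / 225) := by
    have := mul_le_mul_of_nonneg_left hs' (sq_nonneg (m : ℝ))
    linarith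
  have hsum' : ((cop m m).card : ℝ) + bad.card = m * m := by exact_mod_cast hsum
  have : (m : ℝ) * m + 2 * m < 2 * ((cop m m).card : ℝ) := by nlinarith
  exact_mod_cast this

theorem cop_small : ∀ m ∈ Icc 1 64,
    m * m + m ≤ 2 * (cop m m).card ∧ m * m + 2 * m < 2 * (cop (m + 1) m).card := by
  decide +kernel

theorem cop_mono (m : ℕ) : (cop m m).card ≤ (cop (m + 1) m).card := by
  apply card_le_card
  intro p hp
  simp only [cop, mem_filter, mem_product, mem_Icc] at hp ⊢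
  exact ⟨⟨⟨hp.1.1.1, by omega⟩, hp.1.2⟩, hp.2⟩

theorem exists_box (k : ℕ) (hk : 1 ≤ k) :
    ∃ X Y : ℕ, X * Y ≤ k ∧ Y ≤ X ∧ X ≤ Y + 1 ∧ k < 2 * (cop X Y).card := by
  set m := Nat.sqrt k with hm
  have h1 : m * m ≤ k := Nat.sqrt_le k
  have h2 : k < (m + 1) * (m + 1) := Nat.lt_succ_sqrt k
  have hm1 : 1 ≤ m := by
    rw [hm, Nat.succ_le_iff, Nat.sqrt_pos]; exact hk
  have hboth : m * m + m ≤ 2 * (cop m m).card ∧ m * m + 2 * m < 2 * (cop (m + 1) m).card := by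
    by_cases h : m ≤ 64
    · exact cop_small m (mem_Icc.mpr ⟨hm1, h⟩)
    · have h3 := cop_large m (by omega)
      have h4 := cop_mono m
      constructor <;> omega
  by_cases h : (m + 1) * m ≤ k
  · exact ⟨m + 1, m, h, by omega, le_refl _, by nlinarith [hboth.2]⟩
  · exact ⟨m, m, h1, le_refl _, by omega, by nlinarith [hboth.1]⟩

theorem main (k : ℕ) (G : Type) [Group G] [Fintype G] (hG : Fintype.card G = k)
    (φ : ℕ → G) (hinj : Set.InjOn φ (Set.Icc 1 k))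
    (hmul : ∀ x ∈ Set.Icc 1 k, ∀ y ∈ Set.Icc 1 k, x * y ≤ k → φ (x * y) = φ x * φ y) :
    ∀ a b : G, a * b = b * a := by
  classical
  have hk : 1 ≤ k := by rw [← hG]; exact Fintype.card_pos
  obtain ⟨X, Y, hXY, hYX, hXY1, hc⟩ := exists_box k hk
  have hY1 : 1 ≤ Y := by
    by_contra h
    have : Y = 0 := by omega
    subst this
    simp [cop] at hc
  have hXk : X ≤ k := le_trans (Nat.le_mul_of_pos_right X hY1) hXY
  have hmul' : ∀ x y : ℕ, 1 ≤ x → 1 ≤ y → x * y ≤ k → φ (x * y) = φ x * φ y := by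
    intro x y hx hy hxy
    exact hmul x ⟨hx, le_trans (Nat.le_mul_of_pos_right x hy) hxy⟩ y
      ⟨hy, le_trans (Nat.le_mul_of_pos_left y hx) hxy⟩ hxy
  have hcomm : ∀ x y : ℕ, 1 ≤ x → x ≤ X → 1 ≤ y → y ≤ X → φ x * φ y = φ y * φ x := by
    intro x y hx hxX hy hyX
    by_cases hxy : x = y
    · rw [hxy]
    · have hle : x * y ≤ k := by
        refine le_trans ?_ hXY
        rcases Nat.lt_or_gt_of_ne hxy with h | h
        · rw [mul_comm]; exact Nat.mul_le_mul hyX (by omega)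
        · exact Nat.mul_le_mul hxX (by omega)
      rw [← hmul' x y hx hy hle, ← hmul' y x hy hx (by rwa [mul_comm]), mul_comm]
  set S : Set G := φ '' Set.Icc 1 X with hS
  set H : Subgroup G := Subgroup.closure S with hH
  have hHcomm : ∀ a ∈ H, ∀ b ∈ H, a * b = b * a := by
    have hSS : ∀ a ∈ S, ∀ b ∈ S, a * b = b * a := by
      rintro _ ⟨x, hx, rfl⟩ _ ⟨y, hy, rfl⟩
      exact hcomm x y hx.1 hx.2 hy.1 hy.2
    have h1 : H ≤ Subgroup.centralizer S := by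
      rw [hH, Subgroup.closure_le]
      intro a ha
      rw [SetLike.mem_coe, Subgroup.mem_centralizer_iff]
      intro b hb
      exact hSS b hb a ha
    intro a ha
    have h2 : H ≤ Subgroup.centralizer {a} := by
      rw [hH, Subgroup.closure_le]
      intro b hb
      rw [SetLike.mem_coe, Subgroup.mem_centralizer_iff]
      intro c hc
      rw [Set.mem_singleton_iff] at hc
      subst hc
      exact ((Subgroup.mem_centralizer_iff.mp (h1 ha)) b hb).symm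
    intro b hb
    exact (Subgroup.mem_centralizer_iff.mp (h2 hb)) a rfl
  have hmem : ∀ x : ℕ, 1 ≤ x → x ≤ X → φ x ∈ H := fun x hx hxX =>
    Subgroup.subset_closure ⟨x, ⟨hx, hxX⟩, rfl⟩
  let ψ : ℕ × ℕ → G := fun p => φ p.1 * (φ p.2)⁻¹
  have hψinj : Set.InjOn ψ (cop X Y : Set (ℕ × ℕ)) := by
    rintro ⟨a, b⟩ hab ⟨c, d⟩ hcd heq
    simp only [cop, coe_filter, mem_product, mem_Icc, Set.mem_setOf_eq] at hab hcd
    obtain ⟨⟨⟨ha1, haX⟩, hb1, hbY⟩, hg1⟩ := hab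
    obtain ⟨⟨⟨hc1, hcX⟩, hd1, hdY⟩, hg2⟩ := hcd
    have heq' : φ a * (φ b)⁻¹ = φ c * (φ d)⁻¹ := heq
    have hbd : φ b * φ d = φ d * φ b := hcomm b d hb1 (by omega) hd1 (by omega)
    have h1 : φ a * φ d = φ c * φ b := by
      have e1 : φ a = φ c * (φ d)⁻¹ * φ b := by rw [← heq']; group
      rw [e1, mul_assoc, hbd]; group
    have had : a * d ≤ k := le_trans (Nat.mul_le_mul haX hdY) hXY
    have hcb : c * b ≤ k := le_trans (Nat.mul_le_mul hcX hbY) hXY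
    rw [← hmul' a d ha1 hd1 had, ← hmul' c b hc1 hb1 hcb] at h1
    have h2 : a * d = c * b :=
      hinj ⟨Nat.mul_pos ha1 hd1, had⟩ ⟨Nat.mul_pos hc1 hb1, hcb⟩ h1
    have hac : a ∣ c := (Nat.Coprime.dvd_mul_right hg1).mp ⟨d, h2.symm⟩
    have hca : c ∣ a := (Nat.Coprime.dvd_mul_right hg2).mp ⟨b, h2⟩
    have hac' : a = c := Nat.dvd_antisymm hac hca
    subst hac'
    have hbd' : d = b := Nat.eq_of_mul_eq_mul_left ha1 h2
    rw [hbd']
  have hcard : (cop X Y).card ≤ Nat.card H := by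
    have h1 : ((cop X Y).image ψ).card = (cop X Y).card := card_image_of_injOn hψinj
    have h2 : (((cop X Y).image ψ : Finset G) : Set G) ⊆ (H : Set G) := by
      intro g hg
      rw [coe_image] at hg
      obtain ⟨⟨a, b⟩, hab, rfl⟩ := hg
      simp only [cop, coe_filter, mem_product, mem_Icc, Set.mem_setOf_eq] at hab
      obtain ⟨⟨⟨ha1, haX⟩, hb1, hbY⟩, -⟩ := hab
      exact H.mul_mem (hmem a ha1 haX) (H.inv_mem (hmem b hb1 (by omega)))
    have h3 := Set.ncard_le_ncard h2 (Set.toFinite _)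
    rw [Set.ncard_coe_finset, h1] at h3
    exact h3
  have hidx : H.index * Nat.card H = k := by
    rw [Subgroup.index_mul_card, Nat.card_eq_fintype_card, hG]
  have hidx1 : H.index = 1 := by
    have h0 : H.index ≠ 0 := by
      intro h
      rw [h] at hidx
      omega
    by_contra h
    have : 2 ≤ H.index := by omega
    nlinarith
  have htop : H = ⊤ := Subgroup.index_eq_one.mp hidx1
  intro a b
  exact hHcomm a (htop ▸ Subgroup.mem_top a) b (htop ▸ Subgroup.mem_top b)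

end Pool.Agent.P.MP_2c7dbf_nt
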