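import Mathlib

/-! Counting fractions inside an abelian subgroup, and the table for `k ≤ 1680`. -/

namespace Pool.Agent.P.MP_2c7dbf_nt

open Finset

/-- The number of `b` in `[1, Y]` coprime to `a`. -/
def rr (a : ℕ) : ℕ → ℕ
  | 0 => 0
  | b + 1 => rr a b + if Nat.gcd a (b + 1) = 1 then 1 else 0

theorem rr_eq (a Y : ℕ) : rr a Y = ∑ b ∈ Icc 1 Y, if Nat.gcd a b = 1 then 1 else 0 := by
  induction Y with
  | zero => simp [rr]
  | succ Y ih => rw [rr, ih, Finset.sum_Icc_succ_top (by omega)]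

theorem card_box (S : Finset ℕ) (Y : ℕ) :
    ((S ×ˢ Icc 1 Y).filter fun p : ℕ × ℕ => Nat.gcd p.1 p.2 = 1).card = ∑ a ∈ S, rr a Y := by
  rw [Finset.card_filter, Finset.sum_product]
  exact Finset.sum_congr rfl fun a _ => (rr_eq a Y).symm

theorem comm_of_box {G : Type*} [Group G] [Fintype G] {k : ℕ} {φ : ℕ → G}
    (hinj : Set.InjOn φ (Set.Icc 1 k))
    (hmul : ∀ x y : ℕ, 1 ≤ x → 1 ≤ y → x * y ≤ k → φ (x * y) = φ x * φ y)
    (A : Set ℕ) (hA1 : ∀ p ∈ A, 1 ≤ p) (hA : ∀ p ∈ A, ∀ q ∈ A, p = q ∨ p * q ≤ k)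
    {X Y : ℕ} (hXY : X * Y ≤ k) (S : Finset ℕ)
    (hS : ∀ a ∈ S, 1 ≤ a ∧ a ≤ X ∧ φ a ∈ Subgroup.closure (φ '' A))
    (hY : ∀ b, 1 ≤ b → b ≤ Y → φ b ∈ Subgroup.closure (φ '' A))
    (hc : Fintype.card G < 2 * ∑ a ∈ S, rr a Y) : ∀ a b : G, a * b = b * a := by
  classical
  set H : Subgroup G := Subgroup.closure (φ '' A) with hH
  have hHcomm : ∀ a ∈ H, ∀ b ∈ H, a * b = b * a := by
    have hSS : ∀ a ∈ φ '' A, ∀ b ∈ φ '' A, a * b = b * a := by
      rintro _ ⟨x, hx, rfl⟩ _ ⟨y, hy, rfl⟩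
      rcases hA x hx y hy with h | h
      · rw [h]
      · rw [← hmul x y (hA1 x hx) (hA1 y hy) h,
          ← hmul y x (hA1 y hy) (hA1 x hx) (by rwa [mul_comm]), mul_comm]
    have h1 : H ≤ Subgroup.centralizer (φ '' A) := by
      rw [hH, Subgroup.closure_le]
      intro a ha
      exact Subgroup.mem_centralizer_iff.2 fun b hb => hSS b hb a ha
    intro a ha
    have h2 : H ≤ Subgroup.centralizer {a} := by
      rw [hH, Subgroup.closure_le]
      intro b hb
      exact Subgroup.mem_centralizer_singleton_iff.2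
        (Subgroup.mem_centralizer_iff.1 (h1 ha) b hb)
    intro b hb
    exact (Subgroup.mem_centralizer_singleton_iff.1 (h2 hb)).symm
  set F := (S ×ˢ Icc 1 Y).filter fun p : ℕ × ℕ => Nat.gcd p.1 p.2 = 1 with hF
  let ψ : ℕ × ℕ → G := fun p => φ p.1 * (φ p.2)⁻¹
  have hψinj : Set.InjOn ψ (F : Set (ℕ × ℕ)) := by
    rintro ⟨a, b⟩ hab ⟨c, d⟩ hcd heq
    simp only [hF, coe_filter, mem_product, mem_Icc, Set.mem_ofPred_eq] at hab hcd
    obtain ⟨⟨ha, hb1, hbY⟩, hg1⟩ := hab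
    obtain ⟨⟨hc', hd1, hdY⟩, hg2⟩ := hcd
    obtain ⟨ha1, haX, -⟩ := hS a ha
    obtain ⟨hc1, hcX, -⟩ := hS c hc'
    have heq' : φ a * (φ b)⁻¹ = φ c * (φ d)⁻¹ := heq
    have hbd : φ b * φ d = φ d * φ b := hHcomm _ (hY b hb1 hbY) _ (hY d hd1 hdY)
    have h1 : φ a * φ d = φ c * φ b := by
      have e1 : φ a = φ c * (φ d)⁻¹ * φ b := by rw [← heq']; group
      rw [e1, mul_assoc, hbd]
      group
    have had : a * d ≤ k := le_trans (Nat.mul_le_mul haX hdY) hXY
    have hcb : c * b ≤ k := le_trans (Nat.mul_le_mul hcX hbY) hXY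
    rw [← hmul a d ha1 hd1 had, ← hmul c b hc1 hb1 hcb] at h1
    have h2 : a * d = c * b :=
      hinj ⟨Nat.mul_pos ha1 hd1, had⟩ ⟨Nat.mul_pos hc1 hb1, hcb⟩ h1
    have hac : a ∣ c := (Nat.Coprime.dvd_mul_right hg1).mp ⟨d, h2.symm⟩
    have hca : c ∣ a := (Nat.Coprime.dvd_mul_right hg2).mp ⟨b, h2⟩
    have hac' : a = c := Nat.dvd_antisymm hac hca
    subst hac'
    have hbd' : d = b := Nat.eq_of_mul_eq_mul_left ha1 h2
    rw [hbd']
  have hcard : F.card ≤ Nat.card H := by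
    have h1 : (F.image ψ).card = F.card := card_image_of_injOn hψinj
    have h2 : ((F.image ψ : Finset G) : Set G) ⊆ (H : Set G) := by
      intro g hg
      rw [coe_image] at hg
      obtain ⟨⟨a, b⟩, hab, rfl⟩ := hg
      simp only [hF, coe_filter, mem_product, mem_Icc, Set.mem_ofPred_eq] at hab
      obtain ⟨⟨ha, hb1, hbY⟩, -⟩ := hab
      exact H.mul_mem (hS a ha).2.2 (H.inv_mem (hY b hb1 hbY))
    have h3 := Set.ncard_le_ncard h2 (Set.toFinite _)
    rw [Set.ncard_coe_finset, h1] at h3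
    exact h3
  rw [← card_box, ← hF] at hc
  have hidx : H.index * Nat.card H = Fintype.card G := by
    rw [Subgroup.index_mul_card, Nat.card_eq_fintype_card]
  have hpos : 0 < Fintype.card G := Fintype.card_pos
  have hidx1 : H.index = 1 := by
    have h0 : H.index ≠ 0 := by
      intro h
      rw [h] at hidx
      omega
    by_contra h
    have : 2 ≤ H.index := by omega
    nlinarith
  have htop : H = ⊤ := Subgroup.index_eq_one.mp hidx1
  intro a b
  exact hHcomm a (htop ▸ Subgroup.mem_top a) b (htop ▸ Subgroup.mem_top b)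

/-- `a` is a product of at most `f` members of the list `A`. -/
def good (A : List ℕ) : ℕ → ℕ → Bool
  | 0, a => a == 1
  | f + 1, a => a == 1 || A.any fun p => a % p == 0 && good A f (a / p)

theorem good_spec {G : Type*} [Group G] {k : ℕ} {φ : ℕ → G}
    (hmul : ∀ x y : ℕ, 1 ≤ x → 1 ≤ y → x * y ≤ k → φ (x * y) = φ x * φ y)
    (A : List ℕ) (f : ℕ) : ∀ a, good A f a = true → 1 ≤ a → a ≤ k →
      φ a ∈ Subgroup.closure (φ '' {p | p ∈ A}) := by
  have h1 : ∀ a, a = 1 → a ≤ k → φ a ∈ Subgroup.closure (φ '' {p | p ∈ A}) := by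
    rintro _ rfl hk
    have := hmul 1 1 le_rfl le_rfl (by simpa using hk)
    have h : φ 1 = 1 := by simpa using this
    rw [h]
    exact one_mem _
  induction f with
  | zero => intro a h _ hk; exact h1 a (by simpa [good] using h) hk
  | succ f ih =>
    intro a h ha hk
    simp only [good, Bool.or_eq_true, beq_iff_eq, List.any_eq_true, Bool.and_eq_true] at h
    rcases h with h | ⟨p, hp, hpa, hg⟩
    · exact h1 a h hk
    · have e : p * (a / p) = a := Nat.mul_div_cancel' (Nat.dvd_of_mod_eq_zero hpa)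
      have hp1 : 1 ≤ p := Nat.pos_of_ne_zero (by rintro rfl; simp at e; omega)
      have hq1 : 1 ≤ a / p := Nat.pos_of_ne_zero (by intro h0; rw [h0] at e; omega)
      have h2 := hmul p (a / p) hp1 hq1 (by rwa [e])
      rw [e] at h2
      rw [h2]
      exact mul_mem (Subgroup.subset_closure ⟨p, hp, rfl⟩)
        (ih _ hg hq1 ((Nat.div_le_self a p).trans hk))

/-- The number of coprime pairs in a box whose first entry is good. -/
def cnt (A : List ℕ) (Y : ℕ) : ℕ → ℕ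
  | 0 => 0
  | a + 1 => cnt A Y a + if good A 6 (a + 1) = true then rr (a + 1) Y else 0

theorem cnt_eq (A : List ℕ) (Y X : ℕ) :
    cnt A Y X = ∑ a ∈ (Icc 1 X).filter fun a => good A 6 a = true, rr a Y := by
  rw [Finset.sum_filter]
  induction X with
  | zero => simp [cnt]
  | succ X ih => rw [cnt, ih, Finset.sum_Icc_succ_top (by omega)]

/-- The first primes. -/
def gens (n : ℕ) : List ℕ := [2, 3, 5, 7, 11, 13, 17, 19, 23, 29, 31, 37, 41].take n

/-- A chain of boxes that covers `[k, 1680]`. -/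
def chain : ℕ → List (ℕ × ℕ × ℕ) → Bool
  | k, [] => decide (1680 < k)
  | k, t :: l => decide (t.1 * t.2.1 ≤ k) &&
      ((gens t.2.2).all fun p => (gens t.2.2).all fun q => p == q || decide (p * q ≤ k)) &&
      ((List.range t.2.1).all fun b => good (gens t.2.2) 6 (b + 1)) &&
      chain (5 * cnt (gens t.2.2) t.2.1 t.1 / 3 + 1) l

theorem chain_spec (l : List (ℕ × ℕ × ℕ)) : ∀ k, chain k l = true → ∀ j, k ≤ j → j ≤ 1680 →
    ∃ X Y n, X * Y ≤ j ∧ (∀ p ∈ gens n, ∀ q ∈ gens n, p = q ∨ p * q ≤ j) ∧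
      (∀ b, 1 ≤ b → b ≤ Y → good (gens n) 6 b = true) ∧ 3 * j ≤ 5 * cnt (gens n) Y X := by
  induction l with
  | nil =>
    intro k h j h1 h2
    simp only [chain, decide_eq_true_eq] at h
    omega
  | cons t l ih =>
    intro k h j h1 h2
    simp only [chain, Bool.and_eq_true, decide_eq_true_eq, List.all_eq_true, Bool.or_eq_true,
      beq_iff_eq, List.mem_range] at h
    obtain ⟨⟨⟨h3, h4⟩, h5⟩, h6⟩ := h
    by_cases hj : 5 * cnt (gens t.2.2) t.2.1 t.1 / 3 + 1 ≤ j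
    · exact ih _ h6 j hj h2
    · refine ⟨t.1, t.2.1, t.2.2, h3.trans h1, fun p hp q hq => ?_, fun b hb hbY => ?_, by omega⟩
      · exact (h4 p hp q hq).imp id fun h => h.trans h1
      · have := h5 (b - 1) (by omega)
        rwa [Nat.sub_add_cancel hb] at this

theorem chain_table : chain 1
    [(1, 1, 0), (2, 1, 1), (4, 1, 1), (6, 1, 2), (9, 1, 2), (4, 3, 2), (5, 3, 3), (5, 4, 3), (5,
    5, 3), (6, 5, 3), (7, 5, 4), (8, 5, 4), (7, 7, 4), (8, 7, 4), (9, 7, 4), (9, 8, 4), (9,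
    9, 5), (11, 8, 5), (11, 9, 5), (11, 10, 5), (11, 11, 5), (12, 11, 5), (13, 11, 6), (14,
    11, 6), (13, 13, 6), (14, 13, 6), (15, 13, 6), (16, 13, 6), (17, 13, 7), (17, 14, 7),
    (17, 15, 7), (17, 16, 7), (17, 17, 7), (18, 17, 7), (19, 17, 8), (21, 17, 8), (20, 19,
    8), (21, 19, 8), (22, 19, 8), (23, 19, 9), (25, 19, 9), (27, 19, 9), (24, 23, 9), (25,
    23, 9), (26, 23, 9), (25, 25, 9), (26, 25, 9), (29, 23, 10), (27, 26, 10), (29, 25, 10),
    (29, 26, 10), (29, 27, 10), (29, 28, 10), (29, 29, 10), (31, 29, 11), (31, 31, 11), (33,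
    31, 11), (33, 32, 11), (33, 33, 11), (35, 32, 11), (37, 31, 12), (39, 31, 12), (37, 34,
    12), (37, 35, 12), (38, 35, 12), (37, 37, 12), (38, 37, 12), (39, 37, 12), (39, 38, 12),
    (41, 37, 13), (41, 38, 13), (41, 39, 13), (41, 40, 13)] = true := by
  decide +kernel

theorem comm_small {G : Type*} [Group G] [Fintype G] {k : ℕ} {φ : ℕ → G}
    (hinj : Set.InjOn φ (Set.Icc 1 k))
    (hmul : ∀ x y : ℕ, 1 ≤ x → 1 ≤ y → x * y ≤ k → φ (x * y) = φ x * φ y)
    (hk1 : 1 ≤ k) (hk : k ≤ 1680) (hG : 5 * Fintype.card G < 6 * k) :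
    ∀ a b : G, a * b = b * a := by
  obtain ⟨X, Y, n, hXY, hA, hY, hc⟩ := chain_spec _ 1 chain_table k hk1 hk
  have hc0 : 0 < cnt (gens n) Y X := by omega
  have hX : 1 ≤ X := Nat.pos_of_ne_zero (by rintro rfl; simp [cnt] at hc0)
  have hY1 : 1 ≤ Y := Nat.pos_of_ne_zero (by rintro rfl; simp [cnt_eq, rr] at hc0)
  refine comm_of_box hinj hmul {p | p ∈ gens n} (fun p hp => ?_) hA hXY
    ((Icc 1 X).filter fun a => good (gens n) 6 a = true) (fun a ha => ?_) (fun b hb hbY => ?_) ?_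
  · have h1 : p ∈ [2, 3, 5, 7, 11, 13, 17, 19, 23, 29, 31, 37, 41] := List.mem_of_mem_take hp
    simp only [List.mem_cons, List.not_mem_nil, or_false] at h1
    omega
  · simp only [mem_filter, mem_Icc] at ha
    refine ⟨ha.1.1, ha.1.2, good_spec hmul _ 6 a ha.2 ha.1.1 ?_⟩
    exact ha.1.2.trans ((Nat.le_mul_of_pos_right X hY1).trans hXY)
  · exact good_spec hmul _ 6 b (hY b hb hbY) hb
      (hbY.trans ((Nat.le_mul_of_pos_left Y hX).trans hXY))
  · rw [← cnt_eq]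
    omega

end Pool.Agent.P.MP_2c7dbf_nt
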