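import Mathlib
import Pool.Agent.P.MP_2c7dbf_nt.SharpA

/-! Lower bounds for the number of coprime pairs in a square box. -/

namespace Pool.Agent.P.MP_2c7dbf_nt

open Finset

/-- The number of coprime pairs in `[1, X] × [1, Y]`. -/
def box (X Y : ℕ) : ℕ := ∑ a ∈ Icc 1 X, rr a Y

theorem box_succ_left (X Y : ℕ) : box (X + 1) Y = box X Y + rr (X + 1) Y := by
  rw [box, Finset.sum_Icc_succ_top (by omega), box]

theorem box_succ_right (X Y : ℕ) : box X (Y + 1) = box X Y + rr (Y + 1) X := by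
  simp only [box, rr, Finset.sum_add_distrib]
  rw [rr_eq (Y + 1) X]
  simp only [Nat.gcd_comm]

theorem box_succ {m : ℕ} (hm : 1 ≤ m) : box (m + 1) (m + 1) = box m m + 2 * rr (m + 1) m := by
  rw [box_succ_right, box_succ_left, rr, if_neg (by rw [Nat.gcd_self]; omega)]
  omega

/-- One step of the running check. -/
def ok (m c r : ℕ) : Bool :=
  decide (m < 41) || (decide (3 * (m * m + m) ≤ 5 * c + 3) &&
    decide (3 * (m * m + 2 * m) ≤ 5 * (c + r)))

/-- The running check over `f` consecutive values of `m`. -/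
def go : ℕ → ℕ → ℕ → Bool
  | 0, _, _ => true
  | f + 1, m, c => ok m c (rr (m + 1) m) && go f (m + 1) (c + 2 * rr (m + 1) m)

theorem go_spec (f : ℕ) : ∀ m, 1 ≤ m → go f m (box m m) = true → ∀ n, m ≤ n → n < m + f →
    ok n (box n n) (rr (n + 1) n) = true := by
  induction f with
  | zero => intro m _ _ n h1 h2; omega
  | succ f ih =>
    intro m hm h n h1 h2
    rw [go, Bool.and_eq_true, ← box_succ hm] at h
    rcases h1.eq_or_lt with rfl | h3
    · exact h.1
    · exact ih (m + 1) (by omega) h.2 n h3 (by omega)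

theorem go_table : go 760 1 1 = true := by
  decide +kernel

theorem box_middle {m : ℕ} (h1 : 41 ≤ m) (h2 : m ≤ 760) :
    3 * (m * m + m) ≤ 5 * box m m + 3 ∧ 3 * (m * m + 2 * m) ≤ 5 * box (m + 1) m := by
  have h0 : box 1 1 = 1 := by decide
  have := go_spec 760 1 le_rfl (by rw [h0]; exact go_table) m (by omega) (by omega)
  simp only [ok, Bool.or_eq_true, Bool.and_eq_true, decide_eq_true_eq] at this
  rw [box_succ_left]
  exact this.resolve_left (by omega)

/-- The Moebius function for small arguments, by trial division. -/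
def muL : List ℕ → ℕ → ℤ
  | [], n => if n = 1 then 1 else -1
  | p :: l, n => if n % p = 0 then (if n / p % p = 0 then 0 else - muL l (n / p)) else muL l n

/-- The Moebius function for arguments below 361. -/
def mu (n : ℕ) : ℤ := muL [2, 3, 5, 7, 11, 13, 17] n

theorem mu_sum : ∀ g ∈ Icc 1 350,
    ∑ d ∈ (Icc 1 g).filter (fun d => g % d = 0), mu d = if g = 1 then 1 else 0 := by
  decide +kernel

theorem moebius_sum (g : ℕ) :
    ∑ d ∈ g.divisors, ArithmeticFunction.moebius d = if g = 1 then 1 else 0 := by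
  rw [← ArithmeticFunction.coe_mul_zeta_apply, ArithmeticFunction.moebius_mul_coe_zeta,
    ArithmeticFunction.one_apply]

theorem mu_eq (g : ℕ) : 1 ≤ g → g ≤ 350 → ArithmeticFunction.moebius g = mu g := by
  induction g using Nat.strong_induction_on with
  | _ g ih =>
    intro h1 h2
    have h3 := mu_sum g (mem_Icc.2 ⟨h1, h2⟩)
    have h4 : (Icc 1 g).filter (fun d => g % d = 0) = g.divisors := by
      ext d
      simp only [mem_filter, mem_Icc, Nat.mem_divisors, ← Nat.dvd_iff_mod_eq_zero]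
      exact ⟨fun h => ⟨h.2, by omega⟩,
        fun h => ⟨⟨Nat.pos_of_dvd_of_pos h.1 h1, Nat.le_of_dvd h1 h.1⟩, h.1⟩⟩
    rw [h4, ← moebius_sum, ← Nat.cons_self_properDivisors (by omega), Finset.sum_cons,
      Finset.sum_cons] at h3
    have h5 : ∑ d ∈ g.properDivisors, ArithmeticFunction.moebius d =
        ∑ d ∈ g.properDivisors, mu d := by
      refine Finset.sum_congr rfl fun d hd => ?_
      have := Nat.mem_properDivisors.1 hd
      exact ih d this.2 (Nat.pos_of_dvd_of_pos this.1 h1) (by omega)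
    rw [h5] at h3
    exact (add_right_cancel h3).symm

theorem box_moebius (m : ℕ) :
    (box m m : ℤ) = ∑ d ∈ Icc 1 m, ArithmeticFunction.moebius d * ((m / d : ℕ) : ℤ) ^ 2 := by
  have h1 : ∀ a ∈ Icc 1 m, ∀ b ∈ Icc 1 m, (if Nat.gcd a b = 1 then 1 else 0 : ℤ) =
      ∑ d ∈ Icc 1 m, ArithmeticFunction.moebius d *
        ((if d ∣ a then 1 else 0) * (if d ∣ b then 1 else 0)) := by
    intro a ha b _
    have ha' := mem_Icc.1 ha
    have hg : 0 < Nat.gcd a b := Nat.gcd_pos_of_pos_left _ ha'.1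
    have h2 : (Nat.gcd a b).divisors = (Icc 1 m).filter fun d => d ∣ a ∧ d ∣ b := by
      ext d
      simp only [mem_filter, mem_Icc, Nat.mem_divisors, Nat.dvd_gcd_iff]
      exact ⟨fun h => ⟨⟨Nat.pos_of_dvd_of_pos h.1.1 ha'.1,
        (Nat.le_of_dvd ha'.1 h.1.1).trans ha'.2⟩, h.1⟩, fun h => ⟨h.2, hg.ne'⟩⟩
    rw [← moebius_sum, h2, Finset.sum_filter]
    refine Finset.sum_congr rfl fun d _ => ?_
    by_cases hda : d ∣ a <;> by_cases hdb : d ∣ b <;> simp [hda, hdb]
  have h3 : ∀ d : ℕ, ∑ a ∈ Icc 1 m, (if d ∣ a then 1 else 0 : ℤ) = ((m / d : ℕ) : ℤ) := by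
    intro d
    rw [← Nat.Ioc_filter_dvd_card_eq_div, Finset.card_filter]
    push_cast
    rfl
  calc (box m m : ℤ) = ∑ a ∈ Icc 1 m, ∑ b ∈ Icc 1 m, (if Nat.gcd a b = 1 then 1 else 0 : ℤ) := by
        simp only [box, rr_eq]
        push_cast
        rfl
    _ = ∑ a ∈ Icc 1 m, ∑ b ∈ Icc 1 m, ∑ d ∈ Icc 1 m, ArithmeticFunction.moebius d *
        ((if d ∣ a then 1 else 0) * (if d ∣ b then 1 else 0)) :=
        Finset.sum_congr rfl fun a ha => Finset.sum_congr rfl fun b hb => h1 a ha b hb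
    _ = ∑ d ∈ Icc 1 m, ∑ a ∈ Icc 1 m, ∑ b ∈ Icc 1 m, ArithmeticFunction.moebius d *
        ((if d ∣ a then 1 else 0) * (if d ∣ b then 1 else 0)) := by
        rw [Finset.sum_comm]
        exact (Finset.sum_congr rfl fun a _ => Finset.sum_comm).trans
          (Finset.sum_comm.trans (Finset.sum_congr rfl fun d _ => Finset.sum_comm))
    _ = _ := by
        refine Finset.sum_congr rfl fun d _ => ?_
        rw [sq, ← h3 d, Finset.sum_mul_sum, Finset.mul_sum]
        simp only [Finset.mul_sum]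

theorem sum_two : (6079 / 10000 : ℚ) ≤ ∑ d ∈ Icc 1 350, (mu d : ℚ) / (d : ℚ) ^ 2 := by
  decide +kernel

theorem sum_one :
    ∑ d ∈ Icc 1 350, (if mu d = 1 ∧ d ≠ 1 then 1 / (d : ℚ) else 0) ≤ 131 / 100 := by
  decide +kernel

theorem mu_cases : ∀ d ∈ Icc 1 350, mu d = 0 ∨ mu d = 1 ∨ mu d = -1 := by
  decide +kernel

theorem box_large {m : ℕ} (hm : 760 ≤ m) : 3 * (m * m + 2 * m) ≤ 5 * box m m := by
  have h0 : (box m m : ℚ) =
      ∑ d ∈ Icc 1 m, (ArithmeticFunction.moebius d : ℚ) * ((m / d : ℕ) : ℚ) ^ 2 := by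
    have := congrArg (Int.cast : ℤ → ℚ) (box_moebius m)
    simpa only [Int.cast_natCast, Int.cast_sum, Int.cast_mul, Int.cast_pow] using this
  have hsplit : Icc 1 m = Icc 1 350 ∪ Ioc 350 m := by
    ext d
    simp only [mem_union, mem_Icc, mem_Ioc]
    omega
  have hdisj : Disjoint (Icc 1 350) (Ioc 350 m) := by
    rw [Finset.disjoint_left]
    intro d h1 h2
    simp only [mem_Icc, mem_Ioc] at h1 h2
    omega
  have hup : ∀ d : ℕ, ((m / d : ℕ) : ℚ) ^ 2 ≤ (m : ℚ) ^ 2 / (d : ℚ) ^ 2 := fun d => by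
    rw [← div_pow]
    exact pow_le_pow_left₀ (Nat.cast_nonneg _) Nat.cast_div_le 2
  have hlow : ∀ d : ℕ, 1 ≤ d →
      (m : ℚ) ^ 2 / (d : ℚ) ^ 2 - 2 * m * (1 / d) ≤ ((m / d : ℕ) : ℚ) ^ 2 := fun d hd => by
    have hd' : (0 : ℚ) < d := by exact_mod_cast hd
    have h1 : (m : ℚ) / d < ((m / d : ℕ) : ℚ) + 1 := by
      rw [div_lt_iff₀ hd']
      have := Nat.lt_mul_div_succ m hd
      rw [mul_comm] at this
      exact_mod_cast this
    have h2 : ((m / d : ℕ) : ℚ) ≤ (m : ℚ) / d := Nat.cast_div_le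
    have h3 : (0 : ℚ) ≤ ((m / d : ℕ) : ℚ) := Nat.cast_nonneg _
    have h4 : 2 * (m : ℚ) * (1 / d) = 2 * (m / d) := by ring
    rw [← div_pow, h4]
    nlinarith
  have hhead : ∑ d ∈ Icc 1 350, ((m : ℚ) ^ 2 * ((mu d : ℚ) / (d : ℚ) ^ 2) -
        2 * m * (if mu d = 1 ∧ d ≠ 1 then 1 / (d : ℚ) else 0)) ≤
      ∑ d ∈ Icc 1 350, (ArithmeticFunction.moebius d : ℚ) * ((m / d : ℕ) : ℚ) ^ 2 := by
    refine Finset.sum_le_sum fun d hd => ?_
    have hd' := mem_Icc.1 hd
    rw [mu_eq d hd'.1 hd'.2]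
    rcases mu_cases d hd with h | h | h
    · simp [h]
    · by_cases h1 : d = 1
      · subst h1
        simp [h]
      · have := hlow d hd'.1
        rw [if_pos ⟨h, h1⟩, h]
        push_cast
        rw [mul_one_div, one_mul]
        exact this
    · have := hup d
      rw [if_neg (by rw [h]; simp), h]
      push_cast
      rw [mul_div_assoc', mul_neg_one, neg_div]
      linarith
  have htail : -((m : ℚ) ^ 2 * ∑ d ∈ Ioc 350 m, ((d : ℚ) ^ 2)⁻¹) ≤
      ∑ d ∈ Ioc 350 m, (ArithmeticFunction.moebius d : ℚ) * ((m / d : ℕ) : ℚ) ^ 2 := by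
    rw [Finset.mul_sum, ← Finset.sum_neg_distrib]
    refine Finset.sum_le_sum fun d _ => ?_
    have h1 := hup d
    have h2 : (-1 : ℚ) ≤ ArithmeticFunction.moebius d := by
      exact_mod_cast (abs_le.1 (ArithmeticFunction.abs_moebius_le_one (n := d))).1
    have h3 : (0 : ℚ) ≤ ((m / d : ℕ) : ℚ) ^ 2 := by positivity
    rw [← div_eq_mul_inv]
    nlinarith
  have hinv := sum_Ioc_inv_sq_le_sub (α := ℚ) (k := 350) (n := m) (by norm_num) (by omega)
  have hm' : (760 : ℚ) ≤ m := by exact_mod_cast hm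
  have hmi : (0 : ℚ) ≤ (m : ℚ)⁻¹ := by positivity
  have hinv' : ∑ d ∈ Ioc 350 m, ((d : ℚ) ^ 2)⁻¹ ≤ 1 / 350 := by
    push_cast at hinv
    linarith
  rw [hsplit, Finset.sum_union hdisj] at h0
  rw [Finset.sum_sub_distrib, ← Finset.mul_sum, ← Finset.mul_sum] at hhead
  have h1 := mul_le_mul_of_nonneg_left sum_two (sq_nonneg (m : ℚ))
  have h2 := mul_le_mul_of_nonneg_left sum_one (by positivity : (0 : ℚ) ≤ 2 * m)
  have h3 := mul_le_mul_of_nonneg_left hinv' (sq_nonneg (m : ℚ))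
  have h4 : (3 : ℚ) * (m * m + 2 * m) ≤ 5 * (box m m : ℚ) := by nlinarith
  exact_mod_cast h4

theorem comm_of_ratio {G : Type*} [Group G] [Fintype G] {k : ℕ} {φ : ℕ → G}
    (hinj : Set.InjOn φ (Set.Icc 1 k))
    (hmul : ∀ x y : ℕ, 1 ≤ x → 1 ≤ y → x * y ≤ k → φ (x * y) = φ x * φ y)
    (hG : 5 * Fintype.card G < 6 * k) : ∀ a b : G, a * b = b * a := by
  by_cases hk : k ≤ 1680
  · exact comm_small hinj hmul (by omega) hk hG
  set m := Nat.sqrt k with hm
  have h1 : m * m ≤ k := Nat.sqrt_le k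
  have h2 : k < (m + 1) * (m + 1) := Nat.lt_succ_sqrt k
  have h41 : 41 ≤ m := by rw [hm, Nat.le_sqrt]; omega
  have hboth : 3 * (m * m + m) ≤ 5 * box m m + 3 ∧ 3 * (m * m + 2 * m) ≤ 5 * box (m + 1) m := by
    by_cases h : m ≤ 760
    · exact box_middle h41 h
    · have h3 := box_large (m := m) (by omega)
      rw [box_succ_left]
      constructor <;> omega
  have key : ∀ X, X * m ≤ k → m ≤ X → X ≤ m + 1 → 3 * k ≤ 5 * box X m →
      ∀ a b : G, a * b = b * a := by
    intro X hX hmX hXm hc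
    refine comm_of_box hinj hmul (Set.Icc 1 X) (fun p hp => hp.1) (fun p hp q hq => ?_) hX
      (Icc 1 X) (fun a ha => ?_)
      (fun b hb hbm => Subgroup.subset_closure ⟨b, ⟨hb, hbm.trans hmX⟩, rfl⟩) ?_
    · rcases Nat.lt_trichotomy p q with h | h | h
      · right
        have hq2 := hq.2
        rw [mul_comm]
        exact (Nat.mul_le_mul hq2 (by omega)).trans hX
      · exact Or.inl h
      · right
        have hp2 := hp.2
        exact (Nat.mul_le_mul hp2 (by omega)).trans hX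
    · have ha' := mem_Icc.1 ha
      exact ⟨ha'.1, ha'.2, Subgroup.subset_closure ⟨a, ha', rfl⟩⟩
    · change _ < 2 * box X m
      omega
  by_cases h : (m + 1) * m ≤ k
  · exact key (m + 1) h (by omega) le_rfl (by nlinarith [hboth.2])
  · exact key m h1 le_rfl (by omega) (by nlinarith [hboth.1])

end Pool.Agent.P.MP_2c7dbf_nt
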